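import Pool.Agent.R617.SR.Wipe
set_option autoImplicit false

/-!
# Epochs: doubling the length of the walk, with exponential weights
-/

namespace Pool.Agent.R617.SR

open Finset Pool.Agent.TH70.AR

variable {n : ℕ} {A : Past n → Fin n} {c : ℕ → ℕ}

/-- In every cube with more than `K` coordinates the adversary can make the rule walk along at least `N`
records of total weight at most `T`, and then wipe all of them by freezing at most `l` coordinates. -/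
def Lw (A : Past n → Fin n) (c : ℕ → ℕ) (s K l N : ℕ) (T : ℝ) : Prop :=
  ∀ (Y : Finset (Fin n)) (h : Past n) (a : Fin n → Bool), K < Y.card →
    ∃ (q : List (Rec n)) (b : Fin n → Bool) (X : Finset (Fin n)),
      Walk A c h a q b ∧ Ext Y q ∧ (∀ r ∈ q, r.S ⊆ Y) ∧ (∀ r ∈ q, r.W ⊆ Y) ∧
      X ⊆ Y ∧ X.card ≤ l ∧ (∀ r ∈ q, Wipes X b r) ∧ N ≤ q.length ∧ Psi s Y q ≤ T

theorem lw_zero (hA : Valid A) (s : ℕ) : Lw A c s 0 1 1 1 := by
  intro Y h a hY
  have hne : Y.Nonempty := card_pos.1 hY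
  set i := A ((a, c h.length, Y) :: h) with hi
  have hiY : i ∈ Y := hA a _ Y h hne
  refine ⟨[⟨a, Y, Y⟩], flip a i, {i}, ⟨rfl, hne, rfl⟩, ext_single Y a Y, ?_, ?_, ?_, by simp, ?_,
    by simp, ?_⟩
  · intro r hr
    rw [List.mem_singleton] at hr
    subst hr
    exact Subset.refl _
  · intro r hr
    rw [List.mem_singleton] at hr
    subst hr
    exact Subset.refl _
  · simpa using hiY
  · intro r hr
    rw [List.mem_singleton] at hr
    subst hr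
    refine ⟨i, mem_singleton_self i, hiY, ?_⟩
    change flip a i i ≠ a i
    rw [flip_self]
    simp
  · rw [psi_cons, psi_nil]
    simp

theorem lw_mono {s K l N K' l' N' : ℕ} {T T' : ℝ} (h : Lw A c s K l N T) (hK : K ≤ K')
    (hl : l ≤ l') (hN : N' ≤ N) (hT : T ≤ T') : Lw A c s K' l' N' T' := by
  intro Y p a hY
  obtain ⟨q, b, X, h1, h2, h3, h4, h5, h6, h7, h8, h9⟩ := h Y p a (by omega)
  exact ⟨q, b, X, h1, h2, h3, h4, h5, h6.trans hl, h7, hN.trans h8, h9.trans hT⟩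

theorem two_rpow_le {s e j : ℕ} (hs : 1 ≤ s) (he : e ≤ j * s) :
    (2 : ℝ) ^ ((e : ℝ) / s) ≤ 2 ^ j := by
  have hsR : (0 : ℝ) < s := by exact_mod_cast hs
  rw [← Real.rpow_natCast]
  refine Real.rpow_le_rpow_of_exponent_le (by norm_num) ?_
  rw [div_le_iff₀ hsR]
  exact_mod_cast he

theorem lw_succ (hA : Valid A) {θ s K l N : ℕ} {T : ℝ} (hs : 1 ≤ s) (hθ : 1 ≤ θ) (hls : l ≤ s)
    (hg : G θ (θ + 1) ≤ s) (hT : 2 * T ≤ (2 : ℝ) ^ (θ : ℝ)) (h : Lw A c s K l N T)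
    (hK : 2 * s * θ + s + 2 * l ≤ K + l) :
    Lw A c s (K + l) s (2 * N) (6 * T + 8 * HH θ (2 * T) (θ + 1)) := by
  intro Y p a hY
  obtain ⟨q₁, b₁, X₁, w₁, e₁, s₁, u₁, x₁, c₁, v₁, n₁, m₁⟩ := h Y p a (by omega)
  have hY₁ : (Y \ X₁).card + X₁.card = Y.card := card_sdiff_add_card_eq_card x₁
  obtain ⟨q₂, b₂, X₂, w₂, e₂, s₂, u₂, x₂, c₂, v₂, n₂, m₂⟩ :=
    h (Y \ X₁) (pst c p q₁) b₁ (by omega)
  have hY₂ : ((Y \ X₁) \ X₂).card + X₂.card = (Y \ X₁).card := card_sdiff_add_card_eq_card x₂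
  have hT0 : 0 ≤ 2 * T := by
    have := (psi_nonneg s Y q₁).trans m₁
    linarith
  have hΨ : Psi s ((Y \ X₁) \ X₂) (q₁ ++ q₂) ≤ 2 * T := by
    rw [psi_append]
    have h1 := (psi_mono (s := s) (sdiff_subset.trans sdiff_subset : (Y \ X₁) \ X₂ ⊆ Y) q₁).trans m₁
    have h2 := (psi_mono (s := s) (sdiff_subset : (Y \ X₁) \ X₂ ⊆ Y \ X₁) q₂).trans m₂
    linarith
  obtain ⟨q₃, b₃, X₃, w₃, e₃, s₃, u₃, m₃, x₃, -, c₃, v₃, v₃'⟩ :=
    wipe (c := c) hA hs hθ hT0 hT (θ + 1) 0 ((Y \ X₁) \ X₂) ∅ (q₁ ++ q₂)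
      (pst c (pst c p q₁) q₂) b₂ (empty_subset _) hΨ
      (by
        rw [pow_zero, pow_zero, mul_one, mul_one]
        have h1 : ((q₁ ++ q₂).length : ℝ) ≤ (2 : ℝ) ^ θ := by
          rw [← Real.rpow_natCast]
          exact (length_le_psi s _ _).trans (hΨ.trans hT)
        have h2 : (q₁ ++ q₂).length ≤ 2 ^ θ := by exact_mod_cast h1
        exact lt_of_le_of_lt h2 (Nat.pow_lt_pow_right (by norm_num) (by omega)))
      (by rw [card_empty]; omega)
  simp only [sdiff_empty, card_empty, zero_add, Nat.cast_zero, zero_mul] at s₃ u₃ c₃ m₃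
  have f₂ := walk_fix hA w₂ s₂
  have f₃ := walk_fix hA w₃ s₃
  -- the second and third parts
  have S₂₃ : ∀ r ∈ q₂.map (cl X₂ b₂) ++ q₃, r.S ⊆ Y \ X₁ := by
    intro r hr
    rcases List.mem_append.1 hr with hr | hr
    · obtain ⟨s, hs, rfl⟩ := List.mem_map.1 hr
      exact s₂ s hs
    · exact (s₃ r hr).trans sdiff_subset
  have W₂₃ : ∀ r ∈ q₂.map (cl X₂ b₂) ++ q₃, r.W ⊆ Y \ X₁ := by
    intro r hr
    rcases List.mem_append.1 hr with hr | hr
    · obtain ⟨s, hs, rfl⟩ := List.mem_map.1 hr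
      exact (filter_subset _ _).trans (u₂ s hs)
    · exact (u₃ r hr).trans sdiff_subset
  have E₂₃ : Ext (Y \ X₁) (q₂.map (cl X₂ b₂) ++ q₃) :=
    ext_comp e₂ v₂ e₃ s₃ (fun r hr => u₃ r hr) fun r hr x hx =>
      f₃.2 r hr x fun h' => (mem_sdiff.1 h').2 hx
  have E : Ext Y (q₁.map (cl X₁ b₁) ++ (q₂.map (cl X₂ b₂) ++ q₃)) := by
    refine ext_comp e₁ v₁ E₂₃ S₂₃ W₂₃ fun r hr x hx => ?_
    rcases List.mem_append.1 hr with hr | hr
    · obtain ⟨s, hs, rfl⟩ := List.mem_map.1 hr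
      exact f₂.2 s hs x fun h' => (mem_sdiff.1 h').2 hx
    · rw [f₃.2 r hr x fun h' => (mem_sdiff.1 (mem_sdiff.1 h').1).2 hx]
      exact f₂.1 x fun h' => (mem_sdiff.1 h').2 hx
  have hX₃ : ∀ x ∈ X₃, x ∉ X₁ ∧ x ∉ X₂ := fun x hx =>
    ⟨(mem_sdiff.1 (mem_sdiff.1 (x₃ hx)).1).2, (mem_sdiff.1 (x₃ hx)).2⟩
  refine ⟨q₁.map (cl X₁ b₁) ++ (q₂.map (cl X₂ b₂) ++ q₃), b₃, X₃, ?_, E, ?_, ?_,
    x₃.trans (sdiff_subset.trans sdiff_subset), c₃.trans hg, ?_, ?_, ?_⟩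
  · refine walk_append (walk_map w₁) ?_
    rw [pst_map]
    refine walk_append (walk_map w₂) ?_
    rw [pst_map]
    exact w₃
  · intro r hr
    rcases List.mem_append.1 hr with hr | hr
    · obtain ⟨s, hs, rfl⟩ := List.mem_map.1 hr
      exact s₁ s hs
    · exact (S₂₃ r hr).trans sdiff_subset
  · intro r hr
    rcases List.mem_append.1 hr with hr | hr
    · obtain ⟨s, hs, rfl⟩ := List.mem_map.1 hr
      exact (filter_subset _ _).trans (u₁ s hs)
    · exact (W₂₃ r hr).trans sdiff_subset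
  · intro r hr
    rcases List.mem_append.1 hr with hr | hr
    · obtain ⟨s, hs, rfl⟩ := List.mem_map.1 hr
      obtain ⟨x, hx, h1, h2⟩ := v₃ s (List.mem_append_left _ hs)
      exact ⟨x, hx, mem_filter.2 ⟨h1, fun h' => (hX₃ x hx).1 h'.1⟩, h2⟩
    · rcases List.mem_append.1 hr with hr | hr
      · obtain ⟨s, hs, rfl⟩ := List.mem_map.1 hr
        obtain ⟨x, hx, h1, h2⟩ := v₃ s (List.mem_append_right _ hs)
        exact ⟨x, hx, mem_filter.2 ⟨h1, fun h' => (hX₃ x hx).2 h'.1⟩, h2⟩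
      · exact v₃' r hr
  · simp only [List.length_append, List.length_map]
    omega
  · -- the weights
    rw [psi_append, psi_append]
    have p₁ : Psi s Y (q₁.map (cl X₁ b₁)) ≤ 2 * T := by
      have h0 := psi_le_of (s := s) (e := l) (Y := Y) (Y' := Y) (cl X₁ b₁) q₁ fun r hr => by
        have h1 : Y \ (cl X₁ b₁ r).W ⊆ (Y \ r.W) ∪ X₁ := by
          intro x hx
          rw [mem_sdiff] at hx
          rw [mem_union, mem_sdiff]
          by_cases hxX : x ∈ X₁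
          · exact Or.inr hxX
          · exact Or.inl ⟨hx.1, fun hW => hx.2 (mem_filter.2 ⟨hW, fun h' => hxX h'.1⟩)⟩
        have h2 := card_le_card h1
        have h3 := card_union_le (Y \ r.W) X₁
        omega
      have h1 := two_rpow_le (s := s) (e := l) (j := 1) hs (by omega)
      rw [pow_one] at h1
      exact h0.trans (mul_le_mul h1 m₁ (psi_nonneg _ _ _) (by norm_num))
    have p₂ : Psi s Y (q₂.map (cl X₂ b₂)) ≤ 4 * T := by
      have h0 := psi_le_of (s := s) (e := 2 * l) (Y := Y \ X₁) (Y' := Y) (cl X₂ b₂) q₂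
        fun r hr => by
        have h1 : Y \ (cl X₂ b₂ r).W ⊆ ((Y \ X₁) \ r.W) ∪ (X₁ ∪ X₂) := by
          intro x hx
          rw [mem_sdiff] at hx
          rw [mem_union, mem_sdiff, mem_sdiff, mem_union]
          by_cases hxX : x ∈ X₁
          · exact Or.inr (Or.inl hxX)
          by_cases hxX₂ : x ∈ X₂
          · exact Or.inr (Or.inr hxX₂)
          · exact Or.inl ⟨⟨hx.1, hxX⟩,
              fun hW => hx.2 (mem_filter.2 ⟨hW, fun h' => hxX₂ h'.1⟩)⟩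
        have h2 := card_le_card h1
        have h3 := card_union_le ((Y \ X₁) \ r.W) (X₁ ∪ X₂)
        have h3' := card_union_le X₁ X₂
        omega
      have h1 := two_rpow_le (s := s) (e := 2 * l) (j := 2) hs (by omega)
      have h2 : (2 : ℝ) ^ 2 = 4 := by norm_num
      rw [h2] at h1
      exact h0.trans (mul_le_mul h1 m₂ (psi_nonneg _ _ _) (by norm_num))
    have p₃ : Psi s Y q₃ ≤ 8 * HH θ (2 * T) (θ + 1) := by
      have h0 := psi_le_of (s := s) (e := 2 * l) (Y := (Y \ X₁) \ X₂) (Y' := Y) id q₃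
        fun r hr => by
        have h1 : Y \ r.W ⊆ (((Y \ X₁) \ X₂) \ r.W) ∪ (X₁ ∪ X₂) := by
          intro x hx
          rw [mem_sdiff] at hx
          rw [mem_union, mem_sdiff, mem_sdiff, mem_sdiff, mem_union]
          by_cases hxX : x ∈ X₁
          · exact Or.inr (Or.inl hxX)
          by_cases hxX₂ : x ∈ X₂
          · exact Or.inr (Or.inr hxX₂)
          · exact Or.inl ⟨⟨⟨hx.1, hxX⟩, hxX₂⟩, hx.2⟩
        have h2 := card_le_card h1
        have h3 := card_union_le (((Y \ X₁) \ X₂) \ r.W) (X₁ ∪ X₂)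
        have h3' := card_union_le X₁ X₂
        simp only [id]
        omega
      rw [List.map_id] at h0
      have h1 := two_rpow_le (s := s) (e := 2 * l) (j := 2) hs (by omega)
      have h2 : (2 : ℝ) ^ 2 = 4 := by norm_num
      rw [h2] at h1
      have h3 := two_rpow_le (s := s) (e := G θ (θ + 1)) (j := 1) hs (by omega)
      rw [pow_one] at h3
      have hH := HH_nonneg θ hT0 (θ + 1)
      have h4 : Psi s ((Y \ X₁) \ X₂) q₃ ≤ 2 * HH θ (2 * T) (θ + 1) :=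
        m₃.trans (mul_le_mul_of_nonneg_right h3 hH)
      calc Psi s Y q₃ ≤ 4 * Psi s ((Y \ X₁) \ X₂) q₃ :=
            h0.trans (mul_le_mul_of_nonneg_right h1 (psi_nonneg _ _ _))
        _ ≤ _ := by linarith
    linarith

theorem dd_le (θ lam : ℕ) : dd θ lam ≤ θ := by
  rw [dd]
  refine Nat.le_of_lt_succ ((Nat.div_lt_iff_lt_mul (by omega)).2 ?_)
  nlinarith [Nat.zero_le (θ * lam)]

/-- the new records have small weight -/
theorem HH_le (θ : ℕ) {T : ℝ} (hT : 0 ≤ T) (lam : ℕ) :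
    HH θ T lam ≤ 2 * (2 * θ + 1) * T * (4 - 4 * (2 : ℝ) ^ (-(lam : ℝ) / 2)) := by
  have h0 : (2 : ℝ) ^ (-(1 : ℝ) / 2) ≤ 3 / 4 := by
    rw [show (2 : ℝ) ^ (-(1 : ℝ) / 2) = (1 / Real.sqrt 2) by
      rw [Real.sqrt_eq_rpow, one_div, ← Real.rpow_neg (by norm_num)]
      norm_num]
    rw [div_le_iff₀ (by positivity)]
    have : (4 / 3 : ℝ) ≤ Real.sqrt 2 := Real.le_sqrt_of_sq_le (by norm_num)
    linarith
  induction lam with
  | zero => simp [HH]
  | succ lam ih =>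
    rw [HH]
    have h1 : hh T lam = 2 * T * (2 : ℝ) ^ (-(lam : ℝ) / 2) := by
      rw [hh, show (1 - (lam : ℝ) / 2) = 1 + (-(lam : ℝ) / 2) by ring,
        Real.rpow_add (by norm_num), Real.rpow_one]
      ring
    have h2 : (2 : ℝ) ^ (-((lam + 1 : ℕ) : ℝ) / 2) ≤ 3 / 4 * (2 : ℝ) ^ (-(lam : ℝ) / 2) := by
      rw [show (-((lam + 1 : ℕ) : ℝ) / 2) = (-(1 : ℝ) / 2) + (-(lam : ℝ) / 2) by push_cast; ring,
        Real.rpow_add (by norm_num)]
      exact mul_le_mul_of_nonneg_right h0 (by positivity)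
    have h3 : ((2 * dd θ lam + 1 : ℕ) : ℝ) ≤ 2 * θ + 1 := by
      have := dd_le θ lam
      exact_mod_cast (by omega : 2 * dd θ lam + 1 ≤ 2 * θ + 1)
    rw [h1]
    obtain ⟨z, hz⟩ : ∃ z : ℝ, z = (2 : ℝ) ^ (-(lam : ℝ) / 2) := ⟨_, rfl⟩
    have hz0 : 0 ≤ z := by rw [hz]; positivity
    rw [← hz] at ih h2 ⊢
    obtain ⟨y, hy⟩ : ∃ y : ℝ, y = (2 : ℝ) ^ (-((lam + 1 : ℕ) : ℝ) / 2) := ⟨_, rfl⟩
    rw [← hy] at h2 ⊢
    have h4 : ((2 * dd θ lam + 1 : ℕ) : ℝ) * (2 * T * z) ≤ (2 * θ + 1) * (2 * T * z) :=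
      mul_le_mul_of_nonneg_right h3 (by positivity)
    have h5 : (2 * θ + 1 : ℝ) * T * (y - 3 / 4 * z) ≤ 0 :=
      mul_nonpos_of_nonneg_of_nonpos (by positivity) (by linarith)
    nlinarith

/-- all levels -/
theorem lw_all (hA : Valid A) {θ k : ℕ} (hθ : 1 ≤ θ)
    (hk : 2 * (256 * θ + 134) ^ k ≤ 2 ^ θ) (j : ℕ) (hj : j ≤ k) :
    Lw A c (G θ (θ + 1)) (2 * G θ (θ + 1) * θ + (j + 3) * G θ (θ + 1)) (G θ (θ + 1)) (2 ^ j)
      ((256 * θ + 134) ^ j) := by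
  have hG : 1 ≤ G θ (θ + 1) := by
    rw [G]
    omega
  induction j with
  | zero => exact lw_mono (lw_zero hA _) (by omega) hG (by norm_num) (by norm_num)
  | succ j ih =>
    have hC : (2 : ℝ) * (256 * θ + 134) ^ j ≤ (2 : ℝ) ^ (θ : ℝ) := by
      rw [Real.rpow_natCast]
      have h1 : 2 * (256 * θ + 134) ^ j ≤ 2 ^ θ :=
        (Nat.mul_le_mul_left _ (Nat.pow_le_pow_right (by omega) (by omega))).trans hk
      exact_mod_cast h1
    refine lw_mono (lw_succ hA hG hθ le_rfl le_rfl hC (ih (by omega)) ?_) ?_ le_rfl ?_ ?_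
    · nlinarith
    · nlinarith
    · rw [pow_succ]; omega
    · have h1 := HH_le θ (T := 2 * (256 * (θ : ℝ) + 134) ^ j) (by positivity) (θ + 1)
      have h2 : (0 : ℝ) ≤ (2 : ℝ) ^ (-((θ + 1 : ℕ) : ℝ) / 2) := by positivity
      have h3 : (0 : ℝ) ≤ (256 * (θ : ℝ) + 134) ^ j := by positivity
      obtain ⟨y, hy⟩ : ∃ y : ℝ, y = (2 : ℝ) ^ (-((θ + 1 : ℕ) : ℝ) / 2) := ⟨_, rfl⟩
      obtain ⟨z, hz⟩ : ∃ z : ℝ, z = (256 * (θ : ℝ) + 134) ^ j := ⟨_, rfl⟩
      rw [← hy] at h1 h2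
      rw [pow_succ]
      rw [← hz] at h1 h3 ⊢
      have h4 : 0 ≤ 2 * (2 * (θ : ℝ) + 1) * (2 * z) * y := by positivity
      nlinarith

end Pool.Agent.R617.SR
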