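import Pool.Agent.R617.SR.Level
import Mathlib.NumberTheory.Harmonic.Bounds
set_option autoImplicit false

/-!
# The choice of the parameters
-/

namespace Pool.Agent.R617.SR

open Finset

theorem G_le (θ lam : ℕ) :
    (G θ lam : ℝ) ≤ 4 * θ * ((harmonic (lam + 1) : ℝ) - 1) + 3 * lam := by
  induction lam with
  | zero => simp [G, harmonic]
  | succ lam ih =>
    rw [G, harmonic_succ]
    have h1 : (dd θ lam : ℝ) ≤ (2 * θ + lam + 1) / (lam + 2) := by
      rw [dd]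
      have := Nat.cast_div_le (α := ℝ) (m := 2 * θ + lam + 1) (n := lam + 2)
      push_cast at this
      exact this
    have h2 : ((2 * (θ : ℝ) + lam + 1) / (lam + 2)) ≤ 2 * θ * (1 / (lam + 2)) + 1 := by
      rw [div_le_iff₀ (by positivity)]
      have : (2 * (θ : ℝ) * (1 / (lam + 2)) + 1) * (lam + 2) = 2 * θ + lam + 2 := by
        field_simp
        ring
      rw [this]
      linarith
    push_cast
    have h3 : ((lam : ℝ) + 1 + 1)⁻¹ = 1 / (lam + 2) := by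
      rw [one_div]
      congr 1
      ring
    rw [h3]
    linarith

/-- `L` is the number of binary digits of `k` -/
theorem G_le' {k L : ℕ} (hk : 1 ≤ k) (hL : 1 ≤ L) (hkL : k < 2 ^ L) :
    G (16 * k * L) (16 * k * L + 1) ≤ 320 * k * L ^ 2 := by
  have h1 := G_le (16 * k * L) (16 * k * L + 1)
  have h2 := harmonic_le_one_add_log (16 * k * L + 1 + 1)
  have hL2 : L ≤ 2 ^ (L - 1) := by
    have := Nat.lt_two_pow_self (n := L - 1)
    omega
  have h3 : ((16 * k * L + 1 + 1 : ℕ) : ℝ) ≤ 2 ^ (4 + 2 * L) := by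
    have h4 : 16 * k * L + 1 + 1 ≤ 32 * (k * L) := by nlinarith [Nat.mul_le_mul hk hL]
    have h5 : k * L ≤ 2 ^ L * 2 ^ (L - 1) := Nat.mul_le_mul hkL.le hL2
    have h6 : 32 * (2 ^ L * 2 ^ (L - 1)) = 2 ^ (4 + 2 * L) := by
      rw [← pow_add, show (32 : ℕ) = 2 ^ 5 by norm_num, ← pow_add]
      congr 1
      omega
    exact_mod_cast (h4.trans (Nat.mul_le_mul_left _ h5)).trans_eq h6
  have h4 : Real.log ((16 * k * L + 1 + 1 : ℕ) : ℝ) ≤ (4 + 2 * L) * 0.6931471808 := by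
    calc Real.log ((16 * k * L + 1 + 1 : ℕ) : ℝ) ≤ Real.log ((2 : ℝ) ^ (4 + 2 * L)) :=
          Real.log_le_log (by positivity) h3
      _ = (4 + 2 * L) * Real.log 2 := by rw [Real.log_pow]; push_cast; ring
      _ ≤ _ := mul_le_mul_of_nonneg_left Real.log_two_lt_d9.le (by positivity)
  have h5 : (1 : ℝ) ≤ L := by exact_mod_cast hL
  have h6 : (1 : ℝ) ≤ k := by exact_mod_cast hk
  have h7 : (harmonic (16 * k * L + 1 + 1) : ℝ) - 1 ≤ 4.16 * L := by
    have : (4 + 2 * (L : ℝ)) * 0.6931471808 ≤ 4.16 * L := by nlinarith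
    linarith
  have h8 : (G (16 * k * L) (16 * k * L + 1) : ℝ) ≤
      4 * (16 * k * L) * (4.16 * L) + 3 * (16 * k * L + 1) := by
    refine h1.trans ?_
    push_cast
    have := mul_le_mul_of_nonneg_left h7 (by positivity : (0 : ℝ) ≤ 4 * (16 * k * L))
    linarith
  have h9 : (G (16 * k * L) (16 * k * L + 1) : ℝ) ≤ 320 * k * L ^ 2 := by
    refine h8.trans ?_
    have h10 : (1 : ℝ) ≤ k * L := by nlinarith
    have h11 : (k : ℝ) * L ≤ k * L ^ 2 := by nlinarith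
    nlinarith
  exact_mod_cast h9

theorem pow_le {k L : ℕ} (hk : 1 ≤ k) (hL : 1 ≤ L) (hkL : k < 2 ^ L) :
    2 * (256 * (16 * k * L) + 134) ^ k ≤ 2 ^ (16 * k * L) := by
  have hL2 : L ≤ 2 ^ L := Nat.lt_two_pow_self.le
  have h0 : 1 ≤ k * L := Nat.mul_le_mul hk hL
  have h1 : 256 * (16 * k * L) + 134 ≤ 2 ^ (13 + 2 * L) := by
    have h2 : 256 * (16 * k * L) + 134 ≤ 8192 * (k * L) := by nlinarith
    have h3 : k * L ≤ 2 ^ L * 2 ^ L := Nat.mul_le_mul hkL.le hL2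
    have h4 : 8192 * (2 ^ L * 2 ^ L) = 2 ^ (13 + 2 * L) := by
      rw [← pow_add, show (8192 : ℕ) = 2 ^ 13 by norm_num, ← pow_add]
      congr 1
      omega
    exact (h2.trans (Nat.mul_le_mul_left _ h3)).trans_eq h4
  calc 2 * (256 * (16 * k * L) + 134) ^ k ≤ 2 * (2 ^ (13 + 2 * L)) ^ k :=
        Nat.mul_le_mul_left _ (Nat.pow_le_pow_left h1 k)
    _ = 2 ^ (1 + (13 + 2 * L) * k) := by rw [← pow_mul, pow_add, pow_one]
    _ ≤ 2 ^ (16 * k * L) := Nat.pow_le_pow_right (by norm_num) (by nlinarith)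

end Pool.Agent.R617.SR
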