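import Pool.Agent.TH70.AR.Walk
set_option autoImplicit false

/-!
# Exponential weights of records

The weight of a record is `2 ^ (u / s)`, `u` the number of its useless directions. The weights
control the average number of useless directions of every set of records (Jensen).
-/

namespace Pool.Agent.R617.SR

open Finset Pool.Agent.TH70.AR

variable {n : ℕ}

/-- the total weight of the records -/
noncomputable def Psi (s : ℕ) (Y : Finset (Fin n)) (L : List (Rec n)) : ℝ :=
  (L.map fun r => (2 : ℝ) ^ (((Y \ r.W).card : ℝ) / s)).sum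

theorem psi_nil (s : ℕ) (Y : Finset (Fin n)) : Psi s Y [] = 0 := rfl

theorem psi_cons (s : ℕ) (Y : Finset (Fin n)) (r : Rec n) (L : List (Rec n)) :
    Psi s Y (r :: L) = (2 : ℝ) ^ (((Y \ r.W).card : ℝ) / s) + Psi s Y L := by
  simp [Psi]

theorem psi_append (s : ℕ) (Y : Finset (Fin n)) (L L' : List (Rec n)) :
    Psi s Y (L ++ L') = Psi s Y L + Psi s Y L' := by
  simp [Psi]

theorem psi_nonneg (s : ℕ) (Y : Finset (Fin n)) (L : List (Rec n)) : 0 ≤ Psi s Y L := by
  induction L with
  | nil => simp [Psi]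
  | cons r L ih => rw [psi_cons]; positivity

theorem psi_filter (s : ℕ) (Y : Finset (Fin n)) (L : List (Rec n)) (P : Rec n → Bool) :
    Psi s Y (L.filter P) ≤ Psi s Y L := by
  induction L with
  | nil => simp
  | cons r L ih =>
    by_cases h : P r
    · rw [List.filter_cons_of_pos h, psi_cons, psi_cons]
      linarith
    · rw [List.filter_cons_of_neg h, psi_cons]
      have : (0 : ℝ) ≤ (2 : ℝ) ^ (((Y \ r.W).card : ℝ) / s) := by positivity
      linarith

/-- records whose number of useless directions grows by at most `e` -/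
theorem psi_le_of {s e : ℕ} {Y Y' : Finset (Fin n)} (f : Rec n → Rec n) (L : List (Rec n))
    (h : ∀ r ∈ L, (Y' \ (f r).W).card ≤ (Y \ r.W).card + e) :
    Psi s Y' (L.map f) ≤ (2 : ℝ) ^ ((e : ℝ) / s) * Psi s Y L := by
  induction L with
  | nil => simp [Psi]
  | cons r L ih =>
    rw [List.map_cons, psi_cons, psi_cons, mul_add]
    refine add_le_add ?_ (ih fun r hr => h r (List.mem_cons_of_mem _ hr))
    rw [← Real.rpow_add (by norm_num)]
    refine Real.rpow_le_rpow_of_exponent_le (by norm_num) ?_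
    have h1 : ((Y' \ (f r).W).card : ℝ) ≤ (Y \ r.W).card + e := by
      exact_mod_cast h r List.mem_cons_self
    rw [← add_div]
    gcongr
    linarith

theorem psi_mono {s : ℕ} {Y Y' : Finset (Fin n)} (hY : Y' ⊆ Y) (L : List (Rec n)) :
    Psi s Y' L ≤ Psi s Y L := by
  have h := psi_le_of (s := s) (e := 0) (Y := Y) (Y' := Y') id L fun r _ => by
    simpa using card_le_card (sdiff_subset_sdiff hY (Subset.refl _))
  simpa using h

theorem length_le_psi (s : ℕ) (Y : Finset (Fin n)) (L : List (Rec n)) :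
    (L.length : ℝ) ≤ Psi s Y L := by
  induction L with
  | nil => simp [Psi]
  | cons r L ih =>
    rw [psi_cons, List.length_cons]
    push_cast
    have : (1 : ℝ) ≤ (2 : ℝ) ^ (((Y \ r.W).card : ℝ) / s) :=
      Real.one_le_rpow (by norm_num) (by positivity)
    linarith

/-- the tangent of the exponential function -/
theorem tangent (xs : List ℝ) (c : ℝ) :
    (2 : ℝ) ^ c * (xs.length + Real.log 2 * (xs.sum - c * xs.length)) ≤
      (xs.map fun x => (2 : ℝ) ^ x).sum := by
  induction xs with
  | nil => simp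
  | cons x xs ih =>
    rw [List.map_cons, List.sum_cons, List.sum_cons, List.length_cons]
    push_cast
    have h1 : (2 : ℝ) ^ c * (1 + Real.log 2 * (x - c)) ≤ (2 : ℝ) ^ x := by
      have h2 : (2 : ℝ) ^ x = (2 : ℝ) ^ c * (2 : ℝ) ^ (x - c) := by
        rw [← Real.rpow_add (by norm_num)]
        congr 1
        ring
      rw [h2]
      refine mul_le_mul_of_nonneg_left ?_ (by positivity)
      have h3 := Real.add_one_le_exp (Real.log 2 * (x - c))
      rw [Real.rpow_def_of_pos (by norm_num)]
      linarith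
    calc _ = (2 : ℝ) ^ c * (1 + Real.log 2 * (x - c)) +
        (2 : ℝ) ^ c * (xs.length + Real.log 2 * (xs.sum - c * xs.length)) := by ring
      _ ≤ _ := add_le_add h1 ih

theorem sum_div (s : ℕ) (Y : Finset (Fin n)) (L : List (Rec n)) :
    (L.map fun r => ((Y \ r.W).card : ℝ) / s).sum =
      ((L.map fun r => (Y \ r.W).card).sum : ℕ) / (s : ℝ) := by
  induction L with
  | nil => simp
  | cons r L ih =>
    rw [List.map_cons, List.sum_cons, ih, List.map_cons, List.sum_cons]
    push_cast
    ring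

/-- **Jensen's inequality.** -/
theorem jensen (s : ℕ) (Y : Finset (Fin n)) (L : List (Rec n)) {x : ℝ}
    (hx : x * L.length ≤ ((L.map fun r => (Y \ r.W).card).sum : ℕ) / (s : ℝ)) :
    (L.length : ℝ) * (2 : ℝ) ^ x ≤ Psi s Y L := by
  have h := tangent (L.map fun r => ((Y \ r.W).card : ℝ) / s) x
  rw [sum_div, List.length_map, List.map_map] at h
  refine le_trans ?_ h
  rw [mul_comm]
  refine mul_le_mul_of_nonneg_left ?_ (by positivity)
  have h2 : 0 ≤ Real.log 2 := Real.log_nonneg (by norm_num)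
  nlinarith

/-- **The exceptional directions are few.** -/
theorem exceptional {s d : ℕ} {Y : Finset (Fin n)} {L : List (Rec n)} (hs : 1 ≤ s) (hd : 1 ≤ d)
    {τ lam : ℝ} (hlam : (2 : ℝ) ^ lam ≤ L.length) (hτ : Psi s Y L ≤ (2 : ℝ) ^ τ) :
    ((Y.filter fun x => d * L.length < (d + 1) * L.countP (fun r => decide (x ∉ r.W))).card : ℝ)
      / s ≤ (1 + 1 / d) * (τ - lam) := by
  set E := Y.filter fun x => d * L.length < (d + 1) * L.countP (fun r => decide (x ∉ r.W)) with hE
  have h1 : ∑ x ∈ E, d * L.length ≤ ∑ x ∈ E, (d + 1) * L.countP (fun r => decide (x ∉ r.W)) :=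
    sum_le_sum fun x hx => by rw [hE, mem_filter] at hx; exact hx.2.le
  have h2 : ∑ x ∈ E, (d + 1) * L.countP (fun r => decide (x ∉ r.W))
      ≤ (d + 1) * ∑ x ∈ Y, L.countP (fun r => decide (x ∉ r.W)) := by
    rw [← mul_sum]
    exact Nat.mul_le_mul_left _ (sum_le_sum_of_subset (filter_subset _ _))
  rw [sum_count] at h2
  rw [sum_const, smul_eq_mul] at h1
  have h3 : (E.card : ℝ) * (d * L.length) ≤
      (d + 1) * ((L.map fun r => (Y \ r.W).card).sum : ℕ) := by exact_mod_cast h1.trans h2
  have hsR : (0 : ℝ) < s := by exact_mod_cast hs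
  have hdR : (0 : ℝ) < d := by exact_mod_cast hd
  have hl : (0 : ℝ) < L.length := lt_of_lt_of_le (by positivity) hlam
  obtain ⟨S, hS⟩ : ∃ S : ℝ, S = (((L.map fun r => (Y \ r.W).card).sum : ℕ) : ℝ) := ⟨_, rfl⟩
  rw [← hS] at h3
  have h4 := jensen s Y L (x := (E.card : ℝ) / s * (d / (d + 1))) (by
    rw [← hS]
    rw [div_mul_div_comm, div_mul_eq_mul_div, div_le_div_iff₀ (by positivity) hsR]
    nlinarith)
  have h5 : (2 : ℝ) ^ (lam + (E.card : ℝ) / s * (d / (d + 1))) ≤ (2 : ℝ) ^ τ := by
    rw [Real.rpow_add (by norm_num)]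
    exact le_trans (mul_le_mul_of_nonneg_right hlam (by positivity)) (h4.trans hτ)
  rw [Real.rpow_le_rpow_left_iff (by norm_num)] at h5
  have h6 : (E.card : ℝ) / s = (1 + 1 / d) * ((E.card : ℝ) / s * (d / (d + 1))) := by
    field_simp
  rw [h6]
  refine mul_le_mul_of_nonneg_left (by linarith) (by positivity)

end Pool.Agent.R617.SR
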