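import Pool.Agent.R617.SR.Num
import Pool.Agent.TH70.AR.Run
set_option autoImplicit false

/-!
# The run of a rule on the final objective function
-/

namespace Pool.Agent.R617.SR

open Finset Pool.Agent.TH70.AR

variable {n : ℕ}

/-- A walk against the adversary is a run on an objective function. -/
theorem slow_of {n N : ℕ} (A : Past n → Fin n) (hA : Valid A) (x₀ : Fin n → Bool)
    {q : List (Rec n)} {b : Fin n → Bool} (hq : Walk A (fun t => (t + 1) * 2 ^ n) [] x₀ q b)
    (hE : Ext univ q) (hlen : N ≤ q.length) :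
    ∃ f : (Fin n → Bool) → ℕ, Function.Injective f ∧ AOF f ∧
      ∃ (L : ℕ) (w : ℕ → (Fin n → Bool)), w 0 = x₀ ∧
        (∀ t < L, (improving f (w t)).Nonempty ∧ w (t + 1) = flip (w t) (A (seen f w t))) ∧
        improving f (w L) = ∅ ∧ N ≤ L := by
  classical
  obtain ⟨f₀, hf₀, hf₀S, -⟩ := hE (fun _ => false) ∅ (by simp)
  have hf₀S' : ∀ r ∈ q, improving f₀ r.w = r.S := by
    intro r hr
    ext i
    rw [improving, mem_filter]
    simpa using hf₀S r hr i (mem_univ i)
  -- the visited vertices increase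
  have hinc : ∀ (q : List (Rec n)) (h : Past n) (a : Fin n → Bool),
      Walk A (fun t => (t + 1) * 2 ^ n) h a q b → (∀ r ∈ q, improving f₀ r.w = r.S) →
      ∀ (t : ℕ) (ht : t + 1 < q.length), f₀ (q[t]).w < f₀ (q[t + 1]).w := by
    intro q
    induction q with
    | nil => intro h a _ _ t ht; simp at ht
    | cons r q ih =>
      intro h a hq hS t ht
      simp only [Walk] at hq
      obtain ⟨h1, h2, h3⟩ := hq
      cases t with
      | zero =>
        cases q with
        | nil => simp at ht
        | cons s q =>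
          simp only [Walk] at h3
          simp only [List.getElem_cons_zero, List.getElem_cons_succ]
          rw [h3.1]
          have h4 := hA a ((h.length + 1) * 2 ^ n) r.S h h2
          rw [← hS r List.mem_cons_self, improving, mem_filter] at h4
          rw [← hS r List.mem_cons_self, improving]
          have h5 := h4.2
          rw [h1] at h5 ⊢
          exact h5
      | succ t =>
        simp only [List.getElem_cons_succ]
        exact ih _ _ h3 (fun r hr => hS r (List.mem_cons_of_mem _ hr)) t (by simpa using ht)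
  set u : ℕ → (Fin n → Bool) := fun t => if ht : t < q.length then (q[t]).w else x₀ with hu
  have hut : ∀ (t : ℕ) (ht : t < q.length), u t = (q[t]).w := fun t ht => by simp [hu, ht]
  obtain ⟨f, hinj, hadj, hval⟩ := relabel hf₀ (T := q.length) u (by
    intro t ht
    rw [hut t (by omega), hut (t + 1) ht]
    exact hinc q [] x₀ hq hf₀S' t ht)
  have himp : ∀ x, improving f x = improving f₀ x := by
    intro x
    ext i
    simp only [improving, mem_filter, hadj]
  have hAOF : AOF f := by
    have h1 : ∀ y i, f (TH70.AR.flip y i) < f y ↔ f₀ (TH70.AR.flip y i) < f₀ y := by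
      intro y i
      have := hadj (TH70.AR.flip y i) i
      rwa [TH70.AR.flip_flip] at this
    intro F x
    obtain ⟨y, ⟨hy1, hy2⟩, hy3⟩ := hf₀ F x
    exact ⟨y, ⟨hy1, fun i hi => (h1 y i).2 (hy2 i hi)⟩,
      fun z hz => hy3 z ⟨hz.1, fun i hi => (h1 z i).1 (hz.2 i hi)⟩⟩
  have hrun := run_walk (f := f) hq (fun r hr => (himp _).trans (hf₀S' r hr)) (by
    intro t ht
    rw [← hut t ht, hval t ht]
    simp)
  refine ⟨f, hinj, hAOF, ?_⟩
  -- the run
  set w : ℕ → (Fin n → Bool) := fun t => (run A f t x₀ []).1 with hw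
  have hseen : ∀ t, seen f w t = view f (w t) :: (run A f t x₀ []).2 := by
    intro t
    induction t with
    | zero => rfl
    | succ t ih => rw [seen, ih, run_succ]
  have hstep : ∀ t, w (t + 1) = flip (w t) (A (seen f w t)) := by
    intro t
    rw [hseen]
    simp only [hw, run_succ]
  have hup : ∀ t, (improving f (w t)).Nonempty → f (w t) < f (w (t + 1)) := by
    intro t ht
    have h1 := hA (w t) (f (w t)) (improving f (w t)) (run A f t x₀ []).2 ht
    rw [hstep, hseen]
    change A (view f (w t) :: (run A f t x₀ []).2) ∈ _ at h1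
    rw [improving, mem_filter] at h1
    exact h1.2
  have hend : ∃ t, improving f (w t) = ∅ := by
    by_contra hne
    push Not at hne
    have h1 : StrictMono fun t => f (w t) := strictMono_nat_of_lt_succ fun t => hup t (hne t)
    have h2 := h1.injective
    have h3 : Function.Injective w := fun s t h => h2 (by simp only [h])
    exact not_injective_infinite_finite w h3
  refine ⟨Nat.find hend, w, rfl, fun t ht => ⟨?_, hstep t⟩, Nat.find_spec hend, ?_⟩
  · exact nonempty_iff_ne_empty.2 (Nat.find_min hend ht)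
  · by_contra hlt
    have h1 : Nat.find hend < q.length := by omega
    have h2 := hrun _ h1
    have h3 : improving f (w (Nat.find hend)) = (q[Nat.find hend]).S := by
      rw [himp, ← hf₀S' _ (List.getElem_mem h1)]
      congr 1
      exact h2.1
    rw [Nat.find_spec hend] at h3
    rw [← h3] at h2
    exact absurd h2.2 (by simp)


/-- The main lower bound. -/
theorem slow_sqrt {n k : ℕ} (hk : 1 ≤ k) (hn : 12000 * k ^ 2 * (Nat.log 2 k + 1) ^ 3 ≤ n)
    (A : Past n → Fin n) (hA : Valid A) (x₀ : Fin n → Bool) :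
    ∃ f : (Fin n → Bool) → ℕ, Function.Injective f ∧ AOF f ∧
      ∃ (L : ℕ) (w : ℕ → (Fin n → Bool)), w 0 = x₀ ∧
        (∀ t < L, (improving f (w t)).Nonempty ∧ w (t + 1) = flip (w t) (A (seen f w t))) ∧
        improving f (w L) = ∅ ∧ 2 ^ k ≤ L := by
  obtain ⟨L, hL⟩ : ∃ L, L = Nat.log 2 k + 1 := ⟨_, rfl⟩
  rw [← hL] at hn
  have hL1 : 1 ≤ L := by omega
  have hkL : k < 2 ^ L := by
    rw [hL]
    exact Nat.lt_pow_succ_log_self (by norm_num) k
  have h0 : 1 ≤ k * L := Nat.mul_le_mul hk hL1
  have h1 := G_le' hk hL1 hkL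
  have h2 := lw_all (n := n) (c := fun t => (t + 1) * 2 ^ n) hA (θ := 16 * k * L) (k := k)
    (by nlinarith) (pow_le hk hL1 hkL) k le_rfl
  obtain ⟨m, hm⟩ : ∃ m, m = G (16 * k * L) (16 * k * L + 1) := ⟨_, rfl⟩
  rw [← hm] at h1 h2
  have h3 : 2 * m * (16 * k * L) + (k + 3) * m < n := by
    have h4 : 2 * m * (16 * k * L) ≤ 2 * (320 * k * L ^ 2) * (16 * k * L) :=
      Nat.mul_le_mul_right _ (Nat.mul_le_mul_left _ h1)
    have h5 : (k + 3) * m ≤ (4 * k) * (320 * k * L ^ 2) := Nat.mul_le_mul (by omega) h1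
    have h6 : (4 * k) * (320 * k * L ^ 2) ≤ 1280 * k ^ 2 * L ^ 3 := by
      calc (4 * k) * (320 * k * L ^ 2) = 1280 * k ^ 2 * L ^ 2 := by ring
        _ ≤ 1280 * k ^ 2 * L ^ 3 :=
          Nat.mul_le_mul_left _ (Nat.pow_le_pow_right hL1 (by norm_num))
    have h7 : 2 * (320 * k * L ^ 2) * (16 * k * L) = 10240 * k ^ 2 * L ^ 3 := by ring
    have h8 : 0 < k ^ 2 * L ^ 3 := by positivity
    have h9 : 12000 * k ^ 2 * L ^ 3 = 12000 * (k ^ 2 * L ^ 3) := by ring
    have h10 : 1280 * k ^ 2 * L ^ 3 = 1280 * (k ^ 2 * L ^ 3) := by ring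
    have h11 : 10240 * k ^ 2 * L ^ 3 = 10240 * (k ^ 2 * L ^ 3) := by ring
    omega
  obtain ⟨q, b, X, hq, hE, -, -, -, -, -, hlen, -⟩ := h2 univ [] x₀ (by simpa using h3)
  exact slow_of A hA x₀ hq hE hlen

end Pool.Agent.R617.SR
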