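import Pool.Agent.R617.SR.Psi
import Pool.Agent.TH70.AR.Level
set_option autoImplicit false

/-!
# The wiping phase with exponential weights

The records are wiped scale by scale: as long as there are at least `2 ^ lam` records left, a direction is
exceptional if it is useless for more than the part `d / (d + 1)` of them, `d = dd θ lam`.
-/

namespace Pool.Agent.R617.SR

open Finset Pool.Agent.TH70.AR

variable {n : ℕ}

/-- the precision at scale `lam`, the quotient `2 θ / (lam + 2)` rounded up -/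
def dd (θ lam : ℕ) : ℕ := (2 * θ + lam + 1) / (lam + 2)

theorem dd_mul (θ lam : ℕ) : 2 * θ ≤ dd θ lam * (lam + 2) := by
  have h := Nat.div_add_mod (2 * θ + lam + 1) (lam + 2)
  have h2 := Nat.mod_lt (2 * θ + lam + 1) (show 0 < lam + 2 by omega)
  have h3 : dd θ lam * (lam + 2) = (lam + 2) * ((2 * θ + lam + 1) / (lam + 2)) := by
    rw [dd, mul_comm]
  omega

theorem dd_pos {θ : ℕ} (hθ : 1 ≤ θ) (lam : ℕ) : 1 ≤ dd θ lam := by
  by_contra h
  have h2 := dd_mul θ lam
  have h3 : dd θ lam = 0 := by omega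
  rw [h3] at h2
  omega

/-- the number of steps at the scales below `lam` -/
def G (θ : ℕ) : ℕ → ℕ
  | 0 => 0
  | lam + 1 => G θ lam + (2 * dd θ lam + 1)

/-- a bound for the weight of a new record at scale `lam` -/
noncomputable def hh (T : ℝ) (lam : ℕ) : ℝ := T * (2 : ℝ) ^ (1 - (lam : ℝ) / 2)

/-- a bound for the weight of the new records at the scales below `lam` -/
noncomputable def HH (θ : ℕ) (T : ℝ) : ℕ → ℝ
  | 0 => 0
  | lam + 1 => HH θ T lam + (2 * dd θ lam + 1 : ℕ) * hh T lam

theorem hh_nonneg {T : ℝ} (hT : 0 ≤ T) (lam : ℕ) : 0 ≤ hh T lam := by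
  unfold hh; positivity

theorem HH_nonneg (θ : ℕ) {T : ℝ} (hT : 0 ≤ T) (lam : ℕ) : 0 ≤ HH θ T lam := by
  induction lam with
  | zero => exact le_rfl
  | succ lam ih =>
    rw [HH]
    have := hh_nonneg hT lam
    positivity

/-- the exceptional directions at scale `lam` -/
theorem exceptional' {s θ lam : ℕ} {Y : Finset (Fin n)} {L : List (Rec n)} (hs : 1 ≤ s)
    (hθ : 1 ≤ θ) {T : ℝ} (hT : T ≤ (2 : ℝ) ^ (θ : ℝ)) (hL : 2 ^ lam ≤ L.length)
    (hΨ : Psi s Y L ≤ T) :
    (2 : ℝ) ^ (((Y.filter fun x => dd θ lam * L.length <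
        (dd θ lam + 1) * L.countP (fun r => decide (x ∉ r.W))).card : ℝ) / s) ≤ hh T lam ∧
      (Y.filter fun x => dd θ lam * L.length <
        (dd θ lam + 1) * L.countP (fun r => decide (x ∉ r.W))).card ≤ 2 * s * θ := by
  have hlR : (2 : ℝ) ^ (lam : ℝ) ≤ L.length := by
    rw [Real.rpow_natCast]
    exact_mod_cast hL
  have hT0 : 0 < T := lt_of_lt_of_le (by positivity) (hlR.trans ((length_le_psi s Y L).trans hΨ))
  have hτ : (2 : ℝ) ^ (Real.logb 2 T) = T := Real.rpow_logb (by norm_num) (by norm_num) hT0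
  obtain ⟨τ, hτd⟩ : ∃ τ : ℝ, τ = Real.logb 2 T := ⟨_, rfl⟩
  rw [← hτd] at hτ
  have h1 : τ ≤ θ := by
    rw [← hτ, Real.rpow_le_rpow_left_iff (by norm_num)] at hT
    exact hT
  have h2 : (lam : ℝ) ≤ τ := by
    have : (2 : ℝ) ^ (lam : ℝ) ≤ 2 ^ τ := by
      rw [hτ]
      exact hlR.trans ((length_le_psi s Y L).trans hΨ)
    rwa [Real.rpow_le_rpow_left_iff (by norm_num)] at this
  have h3 := exceptional (d := dd θ lam) hs (dd_pos hθ lam) (τ := τ) hlR (by rw [hτ]; exact hΨ)
  generalize hc : (Y.filter fun x => dd θ lam * L.length <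
        (dd θ lam + 1) * L.countP (fun r => decide (x ∉ r.W))).card = e at h3 ⊢
  have hsR : (0 : ℝ) < s := by exact_mod_cast hs
  have hd1 : (1 : ℝ) ≤ dd θ lam := by exact_mod_cast dd_pos hθ lam
  have hd2 : 2 * (θ : ℝ) ≤ dd θ lam * (lam + 2) := by exact_mod_cast dd_mul θ lam
  have hd0 : (0 : ℝ) < dd θ lam := by linarith
  generalize (dd θ lam : ℝ) = d at h3 hd1 hd2 hd0
  have h4 : 1 / d * (τ - lam) ≤ (lam + 2) / 2 := by
    rw [div_mul_eq_mul_div, one_mul, div_le_iff₀ hd0]
    have : (0 : ℝ) ≤ lam := Nat.cast_nonneg _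
    linarith
  have h5 : 1 / d * (τ - lam) ≤ τ - lam := by
    have : 1 / d ≤ 1 := by rw [div_le_one hd0]; exact hd1
    nlinarith
  constructor
  · have h6 : (e : ℝ) / s ≤ τ + (1 - lam / 2) := by linarith
    calc (2 : ℝ) ^ ((e : ℝ) / s) ≤ 2 ^ (τ + (1 - (lam : ℝ) / 2)) :=
          Real.rpow_le_rpow_of_exponent_le (by norm_num) h6
      _ = hh T lam := by rw [Real.rpow_add (by norm_num), hτ, hh]
  · have h6 : (e : ℝ) / s ≤ 2 * θ := by
      have : (0 : ℝ) ≤ lam := Nat.cast_nonneg _
      linarith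
    rw [div_le_iff₀ hsR] at h6
    have h7 : (e : ℝ) ≤ (2 * s * θ : ℕ) := by push_cast; linarith
    exact_mod_cast h7

variable {A : Past n → Fin n} {c : ℕ → ℕ}

/-- The records `L` can be wiped by a walk and by freezing `g` coordinates besides `Z`; the weight of the
new records is at most `2 ^ ((|Z| + g) / s) * B`. -/
def Goal (A : Past n → Fin n) (c : ℕ → ℕ) (s : ℕ) (Y Z : Finset (Fin n)) (L : List (Rec n))
    (h : Past n) (a : Fin n → Bool) (g : ℕ) (B : ℝ) : Prop :=
  ∃ (q : List (Rec n)) (b : Fin n → Bool) (X : Finset (Fin n)),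
    Walk A c h a q b ∧ Ext Y q ∧ (∀ r ∈ q, r.S ⊆ Y \ Z) ∧ (∀ r ∈ q, r.W ⊆ Y) ∧
    Psi s Y q ≤ (2 : ℝ) ^ (((Z.card + g : ℕ) : ℝ) / s) * B ∧
    X ⊆ Y ∧ Z ⊆ X ∧ X.card ≤ Z.card + g ∧
    (∀ r ∈ L, Wipes X b r) ∧ ∀ r ∈ q, Wipes X b r

theorem Goal.mono {s : ℕ} {Y Z : Finset (Fin n)} {L : List (Rec n)} {h : Past n}
    {a : Fin n → Bool} {g g' : ℕ} {B B' : ℝ} (hG : Goal A c s Y Z L h a g B) (hg : g ≤ g')
    (hB : 0 ≤ B) (hBB : B ≤ B') : Goal A c s Y Z L h a g' B' := by
  obtain ⟨q, b, X, h1, h2, h3, h4, h5, h6, h7, h8, h9, h10⟩ := hG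
  refine ⟨q, b, X, h1, h2, h3, h4, h5.trans ?_, h6, h7, by omega, h9, h10⟩
  refine mul_le_mul ?_ hBB hB (by positivity)
  refine Real.rpow_le_rpow_of_exponent_le (by norm_num) ?_
  have : ((Z.card + g : ℕ) : ℝ) ≤ ((Z.card + g' : ℕ) : ℝ) := by exact_mod_cast (by omega)
  gcongr

theorem goal_nil (s : ℕ) {Y Z : Finset (Fin n)} (h : Past n) (a : Fin n → Bool) (hZ : Z ⊆ Y)
    (g : ℕ) {B : ℝ} (hB : 0 ≤ B) : Goal A c s Y Z [] h a g B := by
  refine ⟨[], a, Z, rfl, ext_nil Y, by simp, by simp, ?_, hZ, Subset.refl _, by simp, by simp,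
    by simp⟩
  rw [psi_nil]
  positivity

/-- one step of the wiping phase -/
theorem goal_step (hA : Valid A) {s θ : ℕ} (hs : 1 ≤ s) (hθ : 1 ≤ θ) {T : ℝ}
    (hT : T ≤ (2 : ℝ) ^ (θ : ℝ)) {lam t g : ℕ} {B : ℝ} (hB : 0 ≤ B)
    (ih : ∀ (Y Z : Finset (Fin n)) (L : List (Rec n)) (h : Past n) (a : Fin n → Bool),
      Z ⊆ Y → Psi s Y L ≤ T →
      L.length * (2 * dd θ lam + 1) ^ t < 2 ^ lam * (2 * dd θ lam + 2) ^ t →
      Z.card + 2 * s * θ + g < Y.card → Goal A c s Y Z L h a g B)
    (Y Z : Finset (Fin n)) (L : List (Rec n)) (h : Past n) (a : Fin n → Bool)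
    (hZ : Z ⊆ Y) (hL : Psi s Y L ≤ T)
    (hc : L.length * (2 * dd θ lam + 1) ^ (t + 1) < 2 ^ lam * (2 * dd θ lam + 2) ^ (t + 1))
    (hY : Z.card + 2 * s * θ + (g + 1) < Y.card) (hl : 2 ^ lam ≤ L.length) :
    Goal A c s Y Z L h a (g + 1) (B + hh T lam) := by
  have hT0 : 0 ≤ T := (psi_nonneg s Y L).trans hL
  have hh0 := hh_nonneg hT0 lam
  have hsR : (0 : ℝ) < s := by exact_mod_cast hs
  obtain ⟨k, hk⟩ : ∃ k, k = dd θ lam := ⟨_, rfl⟩
  have hex := exceptional' hs hθ hT hl hL
  rw [← hk] at hc ih hex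
  -- if a test wipes a large part of `L`, the rest is small enough
  have hstep : ∀ P : Rec n → Bool, L.length ≤ (2 * k + 2) * (L.filter P).length →
      (L.filter fun r => !P r).length * (2 * k + 1) ^ t < 2 ^ lam * (2 * k + 2) ^ t := by
    intro P hP
    have h1 := filter_card L P hP
    have h2 : (2 * k + 2) * (L.filter fun r => !P r).length ≤ (2 * k + 1) * L.length := by
      nlinarith
    have h3 : (2 * k + 2) * ((L.filter fun r => !P r).length * (2 * k + 1) ^ t)
        < (2 * k + 2) * (2 ^ lam * (2 * k + 2) ^ t) := by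
      calc (2 * k + 2) * ((L.filter fun r => !P r).length * (2 * k + 1) ^ t)
          = ((2 * k + 2) * (L.filter fun r => !P r).length) * (2 * k + 1) ^ t := by ring
        _ ≤ ((2 * k + 1) * L.length) * (2 * k + 1) ^ t := Nat.mul_le_mul_right _ h2
        _ = L.length * (2 * k + 1) ^ (t + 1) := by ring
        _ < 2 ^ lam * (2 * k + 2) ^ (t + 1) := hc
        _ = (2 * k + 2) * (2 ^ lam * (2 * k + 2) ^ t) := by ring
    exact lt_of_mul_lt_mul_left h3 (Nat.zero_le _)
  by_cases hx : ∃ x ∈ Y, L.length ≤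
      (2 * k + 2) * (L.filter fun r => decide (x ∈ r.W ∧ a x ≠ r.w x)).length
  · -- freeze `x` as it is
    obtain ⟨x, hxY, hx⟩ := hx
    have hZ' : insert x Z ⊆ Y := insert_subset hxY hZ
    have hZc : (insert x Z).card ≤ Z.card + 1 := card_insert_le _ _
    obtain ⟨q, b, X, h1, h2, h3, h4, h5, h6, h7, h8, h9, h10⟩ :=
      ih Y (insert x Z) (L.filter fun r => !decide (x ∈ r.W ∧ a x ≠ r.w x)) h a hZ'
        ((psi_filter s Y L _).trans hL) (hstep _ hx) (by omega)
    refine ⟨q, b, X, h1, h2, fun r hr => ?_, h4, h5.trans ?_, h6,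
      (subset_insert _ _).trans h7, by omega, fun r hr => ?_, h10⟩
    · exact (h3 r hr).trans (sdiff_subset_sdiff (Subset.refl _) (subset_insert _ _))
    · refine mul_le_mul ?_ (by linarith) hB (by positivity)
      refine Real.rpow_le_rpow_of_exponent_le (by norm_num) ?_
      have : (((insert x Z).card + g : ℕ) : ℝ) ≤ ((Z.card + (g + 1) : ℕ) : ℝ) := by
        exact_mod_cast (by omega)
      gcongr
    · by_cases hr' : x ∈ r.W ∧ a x ≠ r.w x
      · refine ⟨x, h7 (mem_insert_self _ _), hr'.1, ?_⟩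
        rw [(walk_fix hA h1 h3).1 x (by simp)]
        exact hr'.2
      · exact h9 r (List.mem_filter.2 ⟨hr, by
          simp only [Bool.not_eq_true', decide_eq_false_iff_not]; exact hr'⟩)
  · -- let the rule move
    push Not at hx
    set E := Y.filter fun x => k * L.length < (k + 1) * L.countP (fun r => decide (x ∉ r.W))
      with hE
    obtain ⟨hEw, hEc⟩ := hex
    set S := Y \ (E ∪ Z) with hS
    have hSc : Y.card ≤ S.card + (E.card + Z.card) := by
      have h1 := card_le_card_sdiff_add_card (s := Y) (t := E ∪ Z)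
      rw [← hS] at h1
      have h2 := card_union_le E Z
      omega
    have hSne : S.Nonempty := by
      rw [← card_pos]
      omega
    have hSY : S ⊆ Y := sdiff_subset
    set i := A ((a, c h.length, S) :: h) with hi
    have hiS : i ∈ S := hA a _ S h hSne
    have hiY : i ∈ Y := hSY hiS
    have hiE : i ∉ E := fun h' => (mem_sdiff.1 hiS).2 (mem_union_left _ h')
    have hiZ : i ∉ Z := fun h' => (mem_sdiff.1 hiS).2 (mem_union_right _ h')
    have hcount : L.length ≤
        (2 * k + 2) * (L.filter fun r => decide (i ∈ r.W ∧ flip a i i ≠ r.w i)).length := by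
      have h1 := count_three L a i
      have h2 := hx i hiY
      have h3 : (k + 1) * L.countP (fun r => decide (i ∉ r.W)) ≤ k * L.length := by
        by_contra h'
        exact hiE (by rw [hE, mem_filter]; exact ⟨hiY, by omega⟩)
      nlinarith
    have hYc : (Y \ {i}).card + 1 = Y.card := by
      rw [sdiff_singleton_eq_erase]
      exact card_erase_add_one hiY
    obtain ⟨q, b, X, h1, h2, h3, h4, h5, h6, h7, h8, h9, h10⟩ :=
      ih (Y \ {i}) Z (L.filter fun r => !decide (i ∈ r.W ∧ flip a i i ≠ r.w i))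
        ((a, c h.length, S) :: h) (flip a i)
        (fun z hz => mem_sdiff.2 ⟨hZ hz, by
          rw [mem_singleton]; rintro rfl; exact hiZ hz⟩)
        ((psi_filter s _ L _).trans ((psi_mono sdiff_subset L).trans hL))
        (hstep _ hcount) (by omega)
    have hq' : ∀ r ∈ q, r.S ⊆ Y \ {i} := fun r hr => (h3 r hr).trans sdiff_subset
    have hfix := walk_fix hA h1 hq'
    have hbi : b i = flip a i i := hfix.1 i (by simp)
    have hne : flip a i i ≠ a i := by rw [flip_self]; simp
    have hcl : [(⟨a, S, S⟩ : Rec n)].map (cl {i} (flip a i)) = [⟨a, S, S⟩] := by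
      simp only [List.map_cons, List.map_nil, cl]
      congr 2
      rw [filter_true_of_mem]
      rintro x hx ⟨h1, h2⟩
      rw [mem_singleton] at h1
      subst h1
      exact hne h2
    refine ⟨⟨a, S, S⟩ :: q, b, insert i X, ⟨rfl, hSne, h1⟩, ?_, ?_, ?_, ?_, ?_, ?_, ?_, ?_, ?_⟩
    · have := ext_comp (X := {i}) (b := flip a i) (ext_single Y a S) (by
        intro r hr
        rw [List.mem_singleton] at hr
        subst hr
        exact ⟨i, mem_singleton_self i, hiS, hne⟩) h2 hq' (fun r hr => h4 r hr) (by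
        intro r hr x hx
        exact hfix.2 r hr x (by rw [mem_sdiff]; exact fun h' => h'.2 hx))
      rwa [hcl] at this
    · intro r hr
      rcases List.mem_cons.1 hr with rfl | hr
      · intro x hx
        rw [mem_sdiff]
        exact ⟨hSY hx, fun h' => (mem_sdiff.1 hx).2 (mem_union_right _ h')⟩
      · exact (h3 r hr).trans (sdiff_subset_sdiff sdiff_subset (Subset.refl _))
    · intro r hr
      rcases List.mem_cons.1 hr with rfl | hr
      · exact hSY
      · exact (h4 r hr).trans sdiff_subset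
    · -- the weight
      rw [psi_cons]
      change (2 : ℝ) ^ (((Y \ S).card : ℝ) / s) + _ ≤ _
      have h11 : Y \ S ⊆ E ∪ Z := by
        intro x hx
        rw [mem_sdiff] at hx
        by_contra h'
        exact hx.2 (mem_sdiff.2 ⟨hx.1, h'⟩)
      have h12 : ((Y \ S).card : ℝ) ≤ Z.card + E.card := by
        have h12 := card_le_card h11
        have h13 := card_union_le E Z
        exact_mod_cast (by omega : (Y \ S).card ≤ Z.card + E.card)
      have h14 : (2 : ℝ) ^ (((Y \ S).card : ℝ) / s) ≤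
          (2 : ℝ) ^ (((Z.card + (g + 1) : ℕ) : ℝ) / s) * hh T lam := by
        calc (2 : ℝ) ^ (((Y \ S).card : ℝ) / s) ≤
              2 ^ (((Z.card : ℝ)) / s + ((E.card : ℝ)) / s) := by
              refine Real.rpow_le_rpow_of_exponent_le (by norm_num) ?_
              rw [← add_div]
              gcongr
          _ = 2 ^ (((Z.card : ℝ)) / s) * 2 ^ (((E.card : ℝ)) / s) := by
              rw [Real.rpow_add (by norm_num)]
          _ ≤ _ := by
              refine mul_le_mul ?_ hEw (by positivity) (by positivity)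
              refine Real.rpow_le_rpow_of_exponent_le (by norm_num) ?_
              have : (Z.card : ℝ) ≤ ((Z.card + (g + 1) : ℕ) : ℝ) := by
                exact_mod_cast (by omega)
              gcongr
      have h15 : Psi s Y q ≤ (2 : ℝ) ^ (((1 : ℕ) : ℝ) / s) * Psi s (Y \ {i}) q := by
        have := psi_le_of (s := s) (e := 1) (Y := Y \ {i}) (Y' := Y) id q fun r _ => by
          have h11 : Y \ r.W ⊆ insert i ((Y \ {i}) \ r.W) := by
            intro x hx
            rw [mem_sdiff] at hx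
            rw [mem_insert, mem_sdiff, mem_sdiff, mem_singleton]
            by_cases hxi : x = i
            · exact Or.inl hxi
            · exact Or.inr ⟨⟨hx.1, hxi⟩, hx.2⟩
          exact (card_le_card h11).trans (card_insert_le i ((Y \ {i}) \ r.W))
        simpa using this
      have h16 : Psi s Y q ≤ (2 : ℝ) ^ (((Z.card + (g + 1) : ℕ) : ℝ) / s) * B := by
        calc Psi s Y q ≤ (2 : ℝ) ^ (((1 : ℕ) : ℝ) / s) *
              ((2 : ℝ) ^ (((Z.card + g : ℕ) : ℝ) / s) * B) :=
              h15.trans (mul_le_mul_of_nonneg_left h5 (by positivity))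
          _ = (2 : ℝ) ^ (((Z.card + (g + 1) : ℕ) : ℝ) / s) * B := by
              rw [← mul_assoc, ← Real.rpow_add (by norm_num)]
              congr 2
              push_cast
              ring
      rw [mul_add]
      linarith
    · exact insert_subset hiY (h6.trans sdiff_subset)
    · exact h7.trans (subset_insert _ _)
    · have := card_insert_le i X
      omega
    · intro r hr
      by_cases hr' : i ∈ r.W ∧ flip a i i ≠ r.w i
      · exact ⟨i, mem_insert_self _ _, hr'.1, by rw [hbi]; exact hr'.2⟩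
      · obtain ⟨x, hx1, hx2⟩ := h9 r (List.mem_filter.2 ⟨hr, by
          simp only [Bool.not_eq_true', decide_eq_false_iff_not]; exact hr'⟩)
        exact ⟨x, mem_insert_of_mem hx1, hx2⟩
    · intro r hr
      rcases List.mem_cons.1 hr with rfl | hr
      · exact ⟨i, mem_insert_self _ _, hiS, by rw [hbi]; exact hne⟩
      · obtain ⟨x, hx1, hx2⟩ := h10 r hr
        exact ⟨x, mem_insert_of_mem hx1, hx2⟩

/-- **The wiping phase.** -/
theorem wipe (hA : Valid A) {s θ : ℕ} (hs : 1 ≤ s) (hθ : 1 ≤ θ) {T : ℝ} (hT0 : 0 ≤ T)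
    (hT : T ≤ (2 : ℝ) ^ (θ : ℝ)) (lam : ℕ) :
    ∀ (t : ℕ) (Y Z : Finset (Fin n)) (L : List (Rec n)) (h : Past n) (a : Fin n → Bool),
      Z ⊆ Y → Psi s Y L ≤ T →
      L.length * (2 * dd θ lam + 1) ^ t < 2 ^ lam * (2 * dd θ lam + 2) ^ t →
      Z.card + 2 * s * θ + (t + G θ lam) < Y.card →
      Goal A c s Y Z L h a (t + G θ lam) (t * hh T lam + HH θ T lam) := by
  -- the case of few records
  have key : ∀ (lam : ℕ), (∀ (t : ℕ) (Y Z : Finset (Fin n)) (L : List (Rec n)) (h : Past n)
      (a : Fin n → Bool), Z ⊆ Y → Psi s Y L ≤ T →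
      L.length < 2 ^ lam →
      Z.card + 2 * s * θ + (t + G θ lam) < Y.card →
      Goal A c s Y Z L h a (t + G θ lam) (t * hh T lam + HH θ T lam)) →
      ∀ (t : ℕ) (Y Z : Finset (Fin n)) (L : List (Rec n)) (h : Past n) (a : Fin n → Bool),
      Z ⊆ Y → Psi s Y L ≤ T →
      L.length * (2 * dd θ lam + 1) ^ t < 2 ^ lam * (2 * dd θ lam + 2) ^ t →
      Z.card + 2 * s * θ + (t + G θ lam) < Y.card →
      Goal A c s Y Z L h a (t + G θ lam) (t * hh T lam + HH θ T lam) := by
    intro lam hlow t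
    induction t with
    | zero =>
      intro Y Z L h a hZ hL hc hY
      exact hlow 0 Y Z L h a hZ hL (by simpa using hc) hY
    | succ t ih =>
      intro Y Z L h a hZ hL hc hY
      by_cases hl : 2 ^ lam ≤ L.length
      · have hB : 0 ≤ t * hh T lam + HH θ T lam := by
          have := hh_nonneg hT0 lam
          have := HH_nonneg θ hT0 lam
          positivity
        refine (goal_step hA hs hθ hT hB ih Y Z L h a hZ hL hc (by omega) hl).mono (by omega)
          ?_ ?_
        · have := hh_nonneg hT0 lam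
          linarith
        · push_cast
          linarith
      · exact hlow (t + 1) Y Z L h a hZ hL (by omega) hY
  induction lam with
  | zero =>
    refine key 0 ?_
    intro t Y Z L h a hZ hL hc hY
    have hL0 : L = [] := by
      rw [← List.length_eq_zero_iff]
      simpa using hc
    subst hL0
    refine goal_nil s h a hZ _ ?_
    have := hh_nonneg hT0 0
    have := HH_nonneg θ hT0 0
    positivity
  | succ lam ihl =>
    refine key (lam + 1) ?_
    intro t Y Z L h a hZ hL hc hY
    have h0 := two_pow_mul_le (dd θ lam) 1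
    rw [mul_one, pow_one] at h0
    have h1 : L.length * (2 * dd θ lam + 1) ^ (2 * dd θ lam + 1) <
        2 ^ lam * (2 * dd θ lam + 2) ^ (2 * dd θ lam + 1) := by
      calc L.length * (2 * dd θ lam + 1) ^ (2 * dd θ lam + 1)
          < 2 ^ (lam + 1) * (2 * dd θ lam + 1) ^ (2 * dd θ lam + 1) :=
            Nat.mul_lt_mul_of_pos_right hc (by positivity)
        _ = 2 ^ lam * (2 * (2 * dd θ lam + 1) ^ (2 * dd θ lam + 1)) := by ring
        _ ≤ _ := Nat.mul_le_mul_left _ h0
    have hg : G θ (lam + 1) = G θ lam + (2 * dd θ lam + 1) := rfl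
    have hH : HH θ T (lam + 1) = HH θ T lam + (2 * dd θ lam + 1 : ℕ) * hh T lam := rfl
    refine (ihl (2 * dd θ lam + 1) Y Z L h a hZ hL h1 (by omega)).mono (by omega) ?_ ?_
    · have := hh_nonneg hT0 lam
      have := HH_nonneg θ hT0 lam
      positivity
    · rw [hH]
      have := hh_nonneg hT0 (lam + 1)
      have h3 : (0 : ℝ) ≤ t * hh T (lam + 1) := by positivity
      linarith

end Pool.Agent.R617.SR
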